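import Pool.Agent.Helper5.SR.St2

/-!
# Project SR (MP_d6acc2_an), module TG: the gain (sampling)
-/

set_option autoImplicit false

namespace Pool.Agent.Helper24.SR

open Complex MeasureTheory Set Metric Filter Topology
open scoped Real
open Helper5.SR
open Pool.Agent.Helper60.Rel (LH tc Admissible ClassS)
open Pool.Agent.Helper51.LT

private lemma zt_norm (ρ t : ℝ) (hρ : 0 < ρ) : ‖(ρ : ℂ) * exp (t * I)‖ = ρ := by
  rw [norm_mul, Complex.norm_exp_ofReal_mul_I, mul_one, Complex.norm_real,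
    Real.norm_of_nonneg hρ.le]

private lemma zt_re (ρ t : ℝ) : ((ρ : ℂ) * exp (t * I)).re = ρ * Real.cos t := by
  rw [Complex.re_ofReal_mul, Complex.exp_ofReal_mul_I_re]

private lemma cos_lb {t : ℝ} (ht : |t| ≤ π / 4) : (707 : ℝ) / 1000 ≤ Real.cos t := by
  have h1 : Real.cos (π / 4) ≤ Real.cos t := by
    rw [← Real.cos_abs t]
    exact Real.cos_le_cos_of_nonneg_of_le_pi (abs_nonneg t) (by linarith [Real.pi_pos]) ht
  rw [Real.cos_pi_div_four] at h1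
  have : (707 : ℝ) / 500 ≤ √2 := Real.le_sqrt_of_sq_le (by norm_num)
  linarith

private lemma exp_sub (a b : ℝ) : exp ((a : ℂ) * I) - exp ((b : ℂ) * I) =
    exp ((b : ℂ) * I) * (exp (I * ((a - b : ℝ) : ℂ)) - 1) := by
  rw [mul_sub, ← Complex.exp_add, mul_one]
  congr 2
  push_cast
  ring

private lemma dist_exp_le (a b : ℝ) : ‖exp ((a : ℂ) * I) - exp ((b : ℂ) * I)‖ ≤ |a - b| := by
  rw [exp_sub, norm_mul, Complex.norm_exp_ofReal_mul_I, one_mul]
  exact Real.norm_exp_I_mul_ofReal_sub_one_le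

private lemma dist_exp_ge (a b : ℝ) (h : |a - b| ≤ π) :
    2 / π * |a - b| ≤ ‖exp ((a : ℂ) * I) - exp ((b : ℂ) * I)‖ := by
  rw [exp_sub, norm_mul, Complex.norm_exp_ofReal_mul_I, one_mul,
    Complex.norm_exp_I_mul_ofReal_sub_one, norm_mul, Real.norm_eq_abs, Real.norm_eq_abs, abs_two]
  have h2 : |(a - b) / 2| = |a - b| / 2 := by rw [abs_div, abs_two]
  have h1 := Real.mul_abs_le_abs_sin (x := (a - b) / 2) (by rw [h2]; linarith)
  rw [h2] at h1
  linarith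

private lemma mem_zt {ρ t : ℝ} (hρ : 999 / 1000 ≤ ρ) (hρ1 : ρ < 1) :
    (ρ : ℂ) * exp (t * I) ∈ ball (0 : ℂ) 1 := by
  rw [mem_ball_zero_iff, zt_norm ρ t (by linarith)]
  exact hρ1

private lemma re_zt {ρ t : ℝ} (hρ : 999 / 1000 ≤ ρ) (ht : |t| ≤ π / 4) :
    7 / 10 ≤ ((ρ : ℂ) * exp (t * I)).re := by
  rw [zt_re]
  have := cos_lb ht
  nlinarith

private lemma sep (hXXI : StXXI) {ρ t t' : ℝ} (hρ : 999 / 1000 ≤ ρ) (hρ1 : ρ < 1)
    (ht : |t| ≤ π / 4) (ht' : |t'| ≤ π / 4) :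
    |t - t'| ≤ 8 * ‖XX (ρ * exp (t * I)) - XX (ρ * exp (t' * I))‖ := by
  set z := (ρ : ℂ) * exp (t * I) with hz
  set w := (ρ : ℂ) * exp (t' * I) with hw
  have hz1 : z ∈ ball (0 : ℂ) 1 := mem_zt hρ hρ1
  have hw1 : w ∈ ball (0 : ℂ) 1 := mem_zt hρ hρ1
  have hz2 : 0 ≤ z.re := by have := re_zt (t := t) hρ ht; rw [← hz] at this; linarith
  have hw2 : 0 ≤ w.re := by have := re_zt (t := t') hρ ht'; rw [← hw] at this; linarith
  obtain ⟨-, -, za, zb, -, -⟩ := hXXI.1 z hz1 hz2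
  obtain ⟨-, -, wa, wb, -, -⟩ := hXXI.1 w hw1 hw2
  rw [hXXI.2.1 z hz1 w hw1 hz2 hw2, norm_div, norm_mul, norm_mul, norm_mul]
  have h4 : ‖(4 : ℂ)‖ = 4 := by norm_num
  rw [h4]
  -- `‖1 + z w‖ ≥ 1`
  have hzw : z * w = ((ρ ^ 2 : ℝ) : ℂ) * exp (((t + t' : ℝ) : ℂ) * I) := by
    rw [hz, hw]
    push_cast
    rw [add_mul, Complex.exp_add]
    ring
  have h1 : 1 ≤ ‖1 + z * w‖ := by
    have hre : (1 + z * w).re = 1 + ρ ^ 2 * Real.cos (t + t') := by
      rw [hzw, Complex.add_re, Complex.one_re, Complex.re_ofReal_mul,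
        Complex.exp_ofReal_mul_I_re]
    have hcos : 0 ≤ Real.cos (t + t') := by
      have h1 := abs_le.1 ht
      have h2 := abs_le.1 ht'
      exact Real.cos_nonneg_of_neg_pi_div_two_le_of_le (by linarith) (by linarith)
    have h2 : (1 + z * w).re ≤ ‖1 + z * w‖ := Complex.re_le_norm _
    rw [hre] at h2
    have : 0 ≤ ρ ^ 2 * Real.cos (t + t') := mul_nonneg (sq_nonneg _) hcos
    linarith
  -- the chord
  have h2 : |t - t'| / 2 ≤ ‖w - z‖ := by
    have e1 : w - z = (ρ : ℂ) * (exp (t' * I) - exp (t * I)) := by rw [hz, hw]; ring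
    have hd : |t' - t| ≤ π := by
      have h1 := abs_le.1 ht
      have h2 := abs_le.1 ht'
      rw [abs_le]
      constructor <;> linarith [Real.pi_pos]
    have h3 := dist_exp_ge t' t hd
    rw [e1, norm_mul, Complex.norm_real, Real.norm_of_nonneg (by linarith : (0:ℝ) ≤ ρ)]
    rw [abs_sub_comm t' t] at h3
    have h5 : (2 : ℝ) / π ≥ 63 / 100 := by
      rw [ge_iff_le, le_div_iff₀ Real.pi_pos]
      have := Real.pi_lt_d2
      linarith
    have h6 : (63 : ℝ) / 100 * |t - t'| ≤ ‖exp ((t' : ℂ) * I) - exp ((t : ℂ) * I)‖ :=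
      le_trans (mul_le_mul_of_nonneg_right h5 (abs_nonneg _)) h3
    have h7 := mul_le_mul hρ h6 (by positivity) (by linarith)
    have := abs_nonneg (t - t')
    nlinarith
  have hden : ‖1 + 2 * z - z ^ 2‖ * ‖1 + 2 * w - w ^ 2‖ ≤ 16 := by
    calc _ ≤ (4 : ℝ) * 4 := mul_le_mul zb wb (norm_nonneg _) (by norm_num)
      _ = 16 := by norm_num
  have hden0 : 0 < ‖1 + 2 * z - z ^ 2‖ * ‖1 + 2 * w - w ^ 2‖ := by
    apply mul_pos <;> linarith
  have h8 : 2 * |t - t'| ≤ 4 * ‖w - z‖ * ‖1 + z * w‖ := by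
    have := abs_nonneg (t - t')
    nlinarith [norm_nonneg (w - z)]
  rw [← mul_div_assoc, le_div_iff₀ hden0]
  have := abs_nonneg (t - t')
  nlinarith

private lemma arg_near (θ v : ℝ) (Q : ℕ) (hQ : 0 < Q) : ∃ i ∈ Finset.range Q,
    ‖exp ((θ : ℂ) * I) - exp ((((v + 2 * π * i) / Q : ℝ) : ℂ) * I)‖ ≤ 2 * π / Q := by
  set s : ℝ := (θ * Q - v) / (2 * π) with hs
  set m : ℤ := ⌊s⌋ with hm
  have hQ' : (0 : ℝ) < Q := by exact_mod_cast hQ
  have hQz : (Q : ℤ) ≠ 0 := by exact_mod_cast hQ.ne'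
  have h0 : 0 ≤ m % Q := Int.emod_nonneg _ hQz
  have h1 : m % Q < Q := Int.emod_lt_of_pos _ (by exact_mod_cast hQ)
  refine ⟨(m % Q).toNat, Finset.mem_range.2 (by omega), ?_⟩
  have hi : (((m % Q).toNat : ℕ) : ℝ) = (m : ℝ) - Q * ((m / Q : ℤ) : ℝ) := by
    have e1 : (((m % Q).toNat : ℕ) : ℤ) = m % Q := Int.toNat_of_nonneg h0
    have e2 : (((m % Q).toNat : ℕ) : ℤ) = m - Q * (m / Q) := by
      rw [e1, Int.emod_def]
    exact_mod_cast e2
  rw [hi]
  have e3 : exp ((((v + 2 * π * ((m : ℝ) - Q * ((m / Q : ℤ) : ℝ))) / Q : ℝ) : ℂ) * I) =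
      exp ((((v + 2 * π * m) / Q : ℝ) : ℂ) * I) := by
    rw [Complex.exp_eq_exp_iff_exists_int]
    refine ⟨-(m / Q), ?_⟩
    have hQc : (Q : ℂ) ≠ 0 := by exact_mod_cast hQ.ne'
    push_cast
    field_simp
    ring
  rw [e3]
  refine (dist_exp_le _ _).trans ?_
  have e4 : θ - (v + 2 * π * m) / Q = 2 * π / Q * (s - m) := by
    rw [hs]
    have := Real.pi_pos.ne'
    field_simp
    ring
  rw [e4, abs_mul, abs_of_pos (by positivity)]
  have h5 : |s - m| ≤ 1 := by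
    rw [abs_le]
    have := Int.floor_le s
    have := Int.lt_floor_add_one s
    constructor <;> linarith
  calc 2 * π / Q * |s - m| ≤ 2 * π / Q * 1 := mul_le_mul_of_nonneg_left h5 (by positivity)
    _ = 2 * π / Q := mul_one _

private lemma exp17 : (2 : ℝ) * 10 ^ 7 ≤ Real.exp 17 := by
  have h1 : Real.exp 17 = Real.exp 1 ^ 17 := by
    rw [← Real.exp_nat_mul]; norm_num
  rw [h1]
  have h2 := Real.exp_one_gt_d9.le
  calc (2 : ℝ) * 10 ^ 7 ≤ 2.7182818283 ^ 17 := by norm_num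
    _ ≤ Real.exp 1 ^ 17 := pow_le_pow_left₀ (by norm_num) h2 17

private lemma half_exp : (1 : ℝ) / 2 ≤ Real.exp (-(1 / 17)) := by
  have := Real.add_one_le_exp (-(1 / 17) : ℝ)
  linarith

/-- the sample points -/
private noncomputable def pp (w : ℂ) (Q i : ℕ) : ℂ := (w + 2 * π * i * I) / Q

private lemma pp_re (w : ℂ) (Q i : ℕ) : (pp w Q i).re = w.re / Q := by
  unfold pp
  rw [Complex.div_natCast_re]
  congr 1
  simp

private lemma exp_pp (w : ℂ) (Q i : ℕ) : exp (pp w Q i) =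
    ((Real.exp (w.re / Q) : ℝ) : ℂ) * exp ((((w.im + 2 * π * i) / Q : ℝ) : ℂ) * I) := by
  rw [Complex.ofReal_exp, ← Complex.exp_add]
  congr 1
  unfold pp
  conv_lhs => rw [← Complex.re_add_im w]
  push_cast
  ring

private lemma pointwise (hXXI : StXXI) (hHyp : StHyp) (C : ℝ) (hC : 17 ≤ C) :
    ∃ (C₃ c' : ℝ) (Q₁ : ℕ), 0 < C₃ ∧ 0 < c' ∧ 2 ≤ Q₁ ∧
      ∀ (h ψ Φ : ℂ → ℂ) (ρ : ℝ) (Q : ℕ), TT h ψ → DifferentiableOn ℂ Φ LH →
      (∀ ζ ∈ LH, exp (Φ ζ) = ψ (exp ζ)) → Q₁ ≤ Q → 999 / 1000 ≤ ρ → ρ < 1 → 1 ≤ Q * (1 - ρ) →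
      Q * (1 - ρ) ≤ 2 → ∀ w : ℂ, Deep C w → ∀ t : ℝ, |t| ≤ π / 4 →
      ∃ i ∈ Finset.range Q, ‖XX (ρ * exp (t * I)) - exp (pp w Q i)‖ ≤ C₃ / Q ∧
        Deep C (Φ (pp w Q i)) ∧
        ‖deriv h (ρ * exp (t * I))‖ ≤ c' * ‖deriv Φ (pp w Q i)‖ := by
  obtain ⟨C', hC', hyp⟩ := hHyp (39 + C) (1 / (2 * C)) (by linarith) (by positivity)
  refine ⟨39 + C, 10 ^ 5 * C', ⌈50 * (39 + C)⌉₊, by linarith, by positivity, ?_, ?_⟩
  · have : (2 : ℝ) ≤ ⌈50 * (39 + C)⌉₊ := le_trans (by linarith) (Nat.le_ceil _)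
    exact_mod_cast this
  intro h ψ Φ ρ Q hTT hΦ hexp hQ hρ hρ1 hQ1 hQ2 w hw t ht
  have hQr : 50 * (39 + C) ≤ Q := le_trans (Nat.le_ceil _) (by exact_mod_cast hQ)
  have hQ0 : (0 : ℝ) < Q := by linarith
  have hQn : 0 < Q := by exact_mod_cast hQ0
  obtain ⟨hψBU, -, -, -, -, hlow, hhalf, hder⟩ := hTT
  set z := (ρ : ℂ) * exp (t * I) with hz
  have hz1 : z ∈ ball (0 : ℂ) 1 := mem_zt hρ hρ1
  have hzre : 7 / 10 ≤ z.re := re_zt hρ ht
  have hzn : ‖z‖ = ρ := zt_norm ρ t (by linarith)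
  obtain ⟨-, -, za, zb, zc, -⟩ := hXXI.1 z hz1 (by linarith)
  obtain ⟨hx, hxd⟩ := hder z hz1 (by linarith)
  set x := XX z with hxdef
  have hx1 : ‖x‖ < 1 := mem_ball_zero_iff.1 hx
  have hxre : x.re ≤ -(8 / 25) := hXXI.2.2 ρ t hρ hρ1 ht
  -- modulus of x
  have hD : (0 : ℝ) < ‖1 + 2 * z - z ^ 2‖ ^ 2 := by positivity
  have hD1 : (1 : ℝ) ≤ ‖1 + 2 * z - z ^ 2‖ ^ 2 := one_le_pow₀ za
  have hD2 : ‖1 + 2 * z - z ^ 2‖ ^ 2 ≤ 16 := by
    have := pow_le_pow_left₀ (norm_nonneg _) zb 2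
    linarith
  rw [hzn, eq_div_iff hD.ne'] at zc
  have hxn0 := norm_nonneg x
  have hρQ1 : 1 / Q ≤ 1 - ρ := by rw [div_le_iff₀ hQ0]; linarith
  have hρQ2 : 1 - ρ ≤ 2 / Q := by rw [le_div_iff₀ hQ0]; linarith
  have hzre1 : z.re ≤ 1 := by
    have := Complex.re_le_norm z
    linarith
  have hnum1 : 8 * z.re * (1 - ρ ^ 2) ≤ 16 * (1 - ρ) := by
    have h1 : 0 ≤ 1 - ρ ^ 2 := by nlinarith
    have h2 : 1 - ρ ^ 2 ≤ 2 * (1 - ρ) := by nlinarith
    nlinarith
  have hnum2 : 28 / 5 * (1 - ρ) ≤ 8 * z.re * (1 - ρ ^ 2) := by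
    have h2 : 1 - ρ ≤ 1 - ρ ^ 2 := by nlinarith
    nlinarith
  have hsq0 : 0 ≤ 1 - ‖x‖ ^ 2 := by
    have : ‖x‖ ^ 2 ≤ 1 := pow_le_one₀ hxn0 hx1.le
    linarith
  have hup : 1 - ‖x‖ ≤ 32 / Q := by
    have h1 : 1 - ‖x‖ ^ 2 ≤ 16 * (1 - ρ) := by
      calc 1 - ‖x‖ ^ 2 ≤ (1 - ‖x‖ ^ 2) * ‖1 + 2 * z - z ^ 2‖ ^ 2 := by
            exact le_mul_of_one_le_right hsq0 hD1
        _ = 8 * z.re * (1 - ρ ^ 2) := zc
        _ ≤ 16 * (1 - ρ) := hnum1
    have h2 : 1 - ‖x‖ ≤ 1 - ‖x‖ ^ 2 := by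
      have : ‖x‖ ^ 2 ≤ ‖x‖ := pow_le_of_le_one hxn0 hx1.le two_ne_zero
      linarith
    have h3 : 16 * (2 / (Q : ℝ)) = 32 / Q := by ring
    linarith
  have hlo : 1 / (2 * C) * (1 / Q) ≤ 1 - ‖x‖ := by
    have h1 : 28 / 5 * (1 - ρ) ≤ (1 - ‖x‖ ^ 2) * 16 := by
      calc 28 / 5 * (1 - ρ) ≤ 8 * z.re * (1 - ρ ^ 2) := hnum2
        _ = (1 - ‖x‖ ^ 2) * ‖1 + 2 * z - z ^ 2‖ ^ 2 := zc.symm
        _ ≤ (1 - ‖x‖ ^ 2) * 16 := mul_le_mul_of_nonneg_left hD2 hsq0
    have h2 : 1 - ‖x‖ ^ 2 ≤ 2 * (1 - ‖x‖) := by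
      have : 0 ≤ (1 - ‖x‖) ^ 2 := sq_nonneg _
      linarith
    have h3 : 1 / (2 * C) ≤ 1 / 34 := by
      apply one_div_le_one_div_of_le <;> linarith
    have h4 : 1 / (2 * C) * (1 / Q) ≤ 1 / 34 * (1 - ρ) :=
      mul_le_mul h3 hρQ1 (by positivity) (by norm_num)
    have h5 : 0 ≤ 1 - ρ := by linarith
    linarith
  -- the sample point
  obtain ⟨i, hi, hiθ⟩ := arg_near (Complex.arg x) w.im Q hQn
  set y := exp (pp w Q i) with hy
  have hwr : 1 / C ≤ -w.re ∧ -w.re ≤ C := by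
    obtain ⟨h1, h2⟩ := hw
    constructor <;> linarith
  set r := Real.exp (w.re / Q) with hr
  have hyn : ‖y‖ = r := by
    rw [hy, Complex.norm_exp, pp_re]
  have hr1 : 1 - r ≤ C / Q := by
    have h1 := Real.one_sub_le_exp_neg (-w.re / Q)
    have h2 : -(-w.re / Q) = w.re / Q := by ring
    rw [h2, ← hr] at h1
    have h3 : -w.re / Q ≤ C / Q := div_le_div_of_nonneg_right hwr.2 hQ0.le
    linarith
  have hCQ : C / Q ≤ 1 / 50 := by
    rw [div_le_div_iff₀ hQ0 (by norm_num)]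
    linarith
  have hr2 : 1 / (2 * C) * (1 / Q) ≤ 1 - r := by
    set u := -w.re / Q with hu
    have hu0 : 1 / C * (1 / Q) ≤ u := by
      rw [hu, div_eq_mul_one_div (-w.re) (Q : ℝ)]
      exact mul_le_mul_of_nonneg_right hwr.1 (by positivity)
    have hu1 : u ≤ 1 / 50 := le_trans (div_le_div_of_nonneg_right hwr.2 hQ0.le) hCQ
    have hupos : 0 < u := lt_of_lt_of_le (by positivity) hu0
    have h1 : r * (1 + u) ≤ 1 := by
      have h2 : r = Real.exp (-u) := by rw [hr, hu]; congr 1; ring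
      have h3 := Real.add_one_le_exp u
      have h4 : Real.exp (-u) * Real.exp u = 1 := by
        rw [← Real.exp_add, neg_add_cancel, Real.exp_zero]
      rw [h2]
      nlinarith [Real.exp_pos (-u)]
    have h5 : 1 / (2 * C) * (1 / Q) = 1 / C * (1 / Q) / 2 := by
      have : C ≠ 0 := by linarith
      field_simp
    rw [h5]
    have h6 : r ≤ 1 - u / 2 := by
      by_contra hcon
      rw [not_le] at hcon
      nlinarith
    linarith
  have hrpos : 0 < r := Real.exp_pos _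
  have hr3 : r ≤ 1 := by
    have : 0 < 1 / (2 * C) * (1 / (Q : ℝ)) := by positivity
    linarith
  have hC39 : (39 + C) / Q ≤ 1 / 50 := by
    rw [div_le_div_iff₀ hQ0 (by norm_num)]
    linarith
  have hclose : ‖x - y‖ ≤ (39 + C) / Q := by
    have e1 : x = (‖x‖ : ℂ) * exp ((Complex.arg x : ℂ) * I) :=
      (Complex.norm_mul_exp_arg_mul_I x).symm
    set e := exp ((((w.im + 2 * π * i) / Q : ℝ) : ℂ) * I) with he
    have e2 : y = (r : ℂ) * e := exp_pp w Q i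
    have e3 : x - y = ((‖x‖ - r : ℝ) : ℂ) * exp ((Complex.arg x : ℂ) * I) +
        (r : ℂ) * (exp ((Complex.arg x : ℂ) * I) - e) := by
      rw [e2]
      conv_lhs => rw [e1]
      push_cast
      ring
    rw [e3]
    refine (norm_add_le _ _).trans ?_
    rw [norm_mul, norm_mul, Complex.norm_exp_ofReal_mul_I, mul_one, Complex.norm_real,
      Complex.norm_real, Real.norm_of_nonneg hrpos.le, Real.norm_eq_abs]
    have h1 : |‖x‖ - r| ≤ (32 + C) / Q := by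
      rw [add_div, abs_le]
      constructor
      · have : 0 ≤ C / Q := by positivity
        linarith
      · have : 0 ≤ 32 / (Q : ℝ) := by positivity
        linarith
    have h2 : r * ‖exp ((Complex.arg x : ℂ) * I) - e‖ ≤ 7 / Q := by
      have h3 : 2 * π / Q ≤ 7 / Q := by
        apply div_le_div_of_nonneg_right _ hQ0.le
        have := Real.pi_lt_d2
        linarith
      calc r * ‖exp ((Complex.arg x : ℂ) * I) - e‖ ≤ 1 * (2 * π / Q) :=
            mul_le_mul hr3 hiθ (norm_nonneg _) (by norm_num)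
        _ ≤ 7 / Q := by rw [one_mul]; exact h3
    have h4 : (32 + C) / Q + 7 / Q = (39 + C) / Q := by ring
    linarith
  have hyball : y ∈ ball (0 : ℂ) 1 := by
    rw [mem_ball_zero_iff, hyn]
    have : 0 < 1 / (2 * C) * (1 / (Q : ℝ)) := by positivity
    linarith
  have hyre : y.re ≤ -(3 / 10) := by
    have h1 : |(x - y).re| ≤ ‖x - y‖ := Complex.abs_re_le_norm _
    rw [Complex.sub_re] at h1
    have h2 := abs_le.1 (h1.trans (hclose.trans hC39))
    linarith [h2.1]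
  have hψ1 := hhalf y hyball hyre
  have hψ2 := hlow y hyball
  rw [hyn] at hψ2
  have hψpos : 0 < ‖ψ y‖ := by
    have h3 : 0 < 10 ^ 7 * ‖ψ y‖ := lt_of_lt_of_le hrpos hψ2
    exact pos_of_mul_pos_right h3 (by norm_num)
  have hpLH : pp w Q i ∈ LH := by
    show (pp w Q i).re < 0
    rw [pp_re]
    have h1 : 0 < 1 / C := by positivity
    exact div_neg_of_neg_of_pos (by linarith [hwr.1]) hQ0
  have hΦy : exp (Φ (pp w Q i)) = ψ y := hexp _ hpLH
  have hΦn : Real.exp (Φ (pp w Q i)).re = ‖ψ y‖ := by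
    rw [← hΦy, Complex.norm_exp]
  refine ⟨i, hi, hclose, ⟨?_, ?_⟩, ?_⟩
  · -- lower bound of the depth
    by_contra hcon
    rw [not_le] at hcon
    have h1 : Real.exp (Φ (pp w Q i)).re < Real.exp (-17) := Real.exp_lt_exp.2 (by linarith)
    have h2 : Real.exp (-17 : ℝ) * Real.exp 17 = 1 := by
      rw [← Real.exp_add]; norm_num
    have h3 := exp17
    rw [hΦn] at h1
    have h4 : (1 : ℝ) / 2 ≤ r := by linarith
    have h5 : Real.exp (-17 : ℝ) * (2 * 10 ^ 7) ≤ 1 := by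
      rw [← h2]
      exact mul_le_mul_of_nonneg_left h3 (Real.exp_pos _).le
    nlinarith
  · by_contra hcon
    rw [not_le] at hcon
    have h0 : 1 / C ≤ 1 / 17 := one_div_le_one_div_of_le (by norm_num) hC
    have h1 : Real.exp (-(1 / 17)) < Real.exp (Φ (pp w Q i)).re := Real.exp_lt_exp.2 (by linarith)
    rw [hΦn] at h1
    have := half_exp
    linarith
  · -- derivatives
    have hLHo : IsOpen LH := isOpen_lt Complex.continuous_re continuous_const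
    have hΦd : HasDerivAt Φ (deriv Φ (pp w Q i)) (pp w Q i) :=
      (hΦ.differentiableAt (hLHo.mem_nhds hpLH)).hasDerivAt
    have hψd : HasDerivAt ψ (deriv ψ y) y :=
      (hψBU.1.1.differentiableAt (isOpen_ball.mem_nhds hyball)).hasDerivAt
    have h1 : HasDerivAt (fun ζ => exp (Φ ζ)) (exp (Φ (pp w Q i)) * deriv Φ (pp w Q i))
        (pp w Q i) := hΦd.cexp
    have h2 : HasDerivAt (fun ζ => ψ (exp ζ)) (deriv ψ y * exp (pp w Q i)) (pp w Q i) :=
      HasDerivAt.comp (pp w Q i) hψd (Complex.hasDerivAt_exp _)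
    have h3 : (fun ζ => exp (Φ ζ)) =ᶠ[𝓝 (pp w Q i)] fun ζ => ψ (exp ζ) := by
      filter_upwards [hLHo.mem_nhds hpLH] with ζ hζ
      exact hexp ζ hζ
    have h4 : exp (Φ (pp w Q i)) * deriv Φ (pp w Q i) = deriv ψ y * y :=
      h1.unique (h2.congr_of_eventuallyEq h3)
    rw [hΦy] at h4
    have h5 : ‖ψ y‖ * ‖deriv Φ (pp w Q i)‖ = ‖deriv ψ y‖ * r := by
      rw [← norm_mul, h4, norm_mul, hyn]
    have h6 : ‖deriv ψ y‖ ≤ ‖deriv Φ (pp w Q i)‖ := by
      have h7 : (1 : ℝ) / 2 ≤ r := by linarith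
      have h8 := norm_nonneg (deriv ψ y)
      have h9 := norm_nonneg (deriv Φ (pp w Q i))
      nlinarith
    have h10 := hyp ψ y y x (1 / Q) hψBU.1 (by positivity)
      (by rw [sub_self, norm_zero]; positivity)
      (by rw [mul_one_div]; exact hclose)
      (by rw [hyn]; exact hr2) hlo
    calc ‖deriv h z‖ ≤ 10 ^ 5 * ‖deriv ψ x‖ := hxd
      _ ≤ 10 ^ 5 * (C' * ‖deriv ψ y‖) := mul_le_mul_of_nonneg_left h10 (by norm_num)
      _ ≤ 10 ^ 5 * (C' * ‖deriv Φ (pp w Q i)‖) :=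
          mul_le_mul_of_nonneg_left (mul_le_mul_of_nonneg_left h6 hC'.le) (by norm_num)
      _ = 10 ^ 5 * C' * ‖deriv Φ (pp w Q i)‖ := by ring

open Classical in
theorem hTg (hXXI : StXXI) (hHyp : StHyp) : StTg := by
  intro C hC
  obtain ⟨C₃, c', Q₁, hC₃, hc', hQ₁, hpt⟩ := pointwise hXXI hHyp C hC
  refine ⟨1 / (c' * (32 * C₃)), max Q₁ 2000, by positivity, le_max_of_le_left hQ₁, ?_⟩
  intro h ψ Φ ρ Q hh hTT hΦ hexp hQ hρ0 hρ1 hQ1 hQ2 w hw
  have hQ1' : Q₁ ≤ Q := le_trans (le_max_left _ _) hQ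
  have hQ2' : 2000 ≤ Q := le_trans (le_max_right _ _) hQ
  have hQr : (2000 : ℝ) ≤ Q := by exact_mod_cast hQ2'
  have hQ0 : (0 : ℝ) < Q := by linarith
  have hρ : 999 / 1000 ≤ ρ := by nlinarith
  have hpt' := hpt h ψ Φ ρ Q hTT hΦ hexp hQ1' hρ hρ1 hQ1 hQ2 w hw
  set d : ℕ → ℝ := fun i => if Deep C (Φ (pp w Q i)) then ‖deriv Φ (pp w Q i)‖ else 0 with hd
  have hd0 : ∀ i, 0 ≤ d i := by
    intro i
    simp only [hd]
    split_ifs
    · exact norm_nonneg _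
    · exact le_rfl
  show 1 / (c' * (32 * C₃)) * Q * ∫ t in (-(π / 4))..(π / 4), ‖deriv h (ρ * exp (t * I))‖ ≤
    ∑ i ∈ Finset.range Q, d i
  -- the set of `t` near the sample point `i`
  let A : ℕ → Set ℝ := fun i => {t | |t| ≤ π / 4 ∧
    ‖XX (ρ * exp (t * I)) - exp (pp w Q i)‖ ≤ C₃ / Q}
  have hA : ∀ i, ∃ B : Set ℝ, A i ⊆ B ∧ MeasurableSet B ∧ volume B ≤ ENNReal.ofReal (32 * C₃ / Q) := by
    intro i
    by_cases hne : (A i).Nonempty
    · obtain ⟨t₀, ht₀, ht₀'⟩ := hne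
      refine ⟨Set.Icc (t₀ - 16 * C₃ / Q) (t₀ + 16 * C₃ / Q), ?_, measurableSet_Icc, ?_⟩
      · rintro t ⟨ht, ht'⟩
        have h1 := sep hXXI hρ hρ1 ht ht₀
        have h2 : ‖XX (ρ * exp (t * I)) - XX (ρ * exp (t₀ * I))‖ ≤ C₃ / Q + C₃ / Q := by
          have e : XX (ρ * exp (t * I)) - XX (ρ * exp (t₀ * I)) =
            (XX (ρ * exp (t * I)) - exp (pp w Q i)) - (XX (ρ * exp (t₀ * I)) - exp (pp w Q i)) := by
            ring
          rw [e]
          exact (norm_sub_le _ _).trans (add_le_add ht' ht₀')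
        have h3 : |t - t₀| ≤ 16 * C₃ / Q := by
          have e : 16 * C₃ / Q = 8 * (C₃ / Q + C₃ / Q) := by ring
          rw [e]
          linarith
        have h4 := abs_le.1 h3
        constructor <;> linarith
      · rw [Real.volume_Icc]
        apply ENNReal.ofReal_le_ofReal
        have : t₀ + 16 * C₃ / Q - (t₀ - 16 * C₃ / Q) = 32 * C₃ / Q := by ring
        rw [this]
    · refine ⟨∅, ?_, MeasurableSet.empty, by simp⟩
      rw [Set.not_nonempty_iff_eq_empty.1 hne]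
  choose B hAB hBm hBv using hA
  have hint : ∀ i, Integrable ((B i).indicator fun _ : ℝ => c' * d i) := by
    intro i
    rw [integrable_indicator_iff (hBm i)]
    exact integrableOn_const (lt_of_le_of_lt (hBv i) ENNReal.ofReal_lt_top).ne
  have hcont : ContinuousOn (fun t : ℝ => ‖deriv h (ρ * exp (t * I))‖)
      (Set.uIcc (-(π / 4)) (π / 4)) := by
    apply ContinuousOn.norm
    have h1 : ContinuousOn (deriv h) (ball 0 1) :=
      (hh.1.1.deriv isOpen_ball).continuousOn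
    refine h1.comp (Continuous.continuousOn (by fun_prop)) fun t _ => ?_
    exact mem_zt hρ hρ1
  have hπ : -(π / 4) ≤ π / 4 := by linarith [Real.pi_pos]
  have key : ∫ t in (-(π / 4))..(π / 4), ‖deriv h (ρ * exp (t * I))‖ ≤
      ∫ t in (-(π / 4))..(π / 4), ∑ i ∈ Finset.range Q, (B i).indicator (fun _ : ℝ => c' * d i) t := by
    refine intervalIntegral.integral_mono_on hπ hcont.intervalIntegrable ?_ ?_
    · have : IntervalIntegrable (∑ i ∈ Finset.range Q, (B i).indicator (fun _ : ℝ => c' * d i))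
          volume (-(π / 4)) (π / 4) :=
        IntervalIntegrable.sum _ fun i _ => (hint i).intervalIntegrable
      convert this using 1
      ext t
      rw [Finset.sum_apply]
    · intro t ht
      have ht' : |t| ≤ π / 4 := abs_le.2 ht
      obtain ⟨i, hi, hi1, hi2, hi3⟩ := hpt' t ht'
      have hmem : t ∈ B i := hAB i ⟨ht', hi1⟩
      have h1 : (B i).indicator (fun _ : ℝ => c' * d i) t = c' * ‖deriv Φ (pp w Q i)‖ := by
        rw [Set.indicator_of_mem hmem]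
        simp only [hd, if_pos hi2]
      refine (h1 ▸ hi3).trans (Finset.single_le_sum
        (f := fun i => (B i).indicator (fun _ : ℝ => c' * d i) t) (fun j _ => ?_) hi)
      exact Set.indicator_nonneg (fun _ _ => mul_nonneg hc'.le (hd0 j)) t
  have key2 : ∫ t in (-(π / 4))..(π / 4), ∑ i ∈ Finset.range Q,
      (B i).indicator (fun _ : ℝ => c' * d i) t ≤ ∑ i ∈ Finset.range Q, (32 * C₃ / Q) * (c' * d i) := by
    rw [intervalIntegral.integral_finsetSum fun i _ => (hint i).intervalIntegrable]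
    refine Finset.sum_le_sum fun i _ => ?_
    rw [intervalIntegral.integral_of_le hπ]
    have hnn : 0 ≤ c' * d i := mul_nonneg hc'.le (hd0 i)
    refine (MeasureTheory.setIntegral_le_integral (hint i)
      (Filter.Eventually.of_forall fun t => Set.indicator_nonneg (fun _ _ => hnn) t)).trans ?_
    rw [MeasureTheory.integral_indicator_const _ (hBm i), smul_eq_mul]
    refine mul_le_mul_of_nonneg_right ?_ hnn
    exact ENNReal.toReal_le_of_le_ofReal (by positivity) (hBv i)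
  have key3 : ∑ i ∈ Finset.range Q, (32 * C₃ / Q) * (c' * d i) =
      (c' * (32 * C₃)) / Q * ∑ i ∈ Finset.range Q, d i := by
    rw [Finset.mul_sum]
    exact Finset.sum_congr rfl fun i _ => by ring
  have key4 := key.trans (key2.trans_eq key3)
  have hcc : 0 < c' * (32 * C₃) := by positivity
  calc 1 / (c' * (32 * C₃)) * Q * ∫ t in (-(π / 4))..(π / 4), ‖deriv h (ρ * exp (t * I))‖
      ≤ 1 / (c' * (32 * C₃)) * Q * ((c' * (32 * C₃)) / Q * ∑ i ∈ Finset.range Q, d i) :=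
        mul_le_mul_of_nonneg_left key4 (by positivity)
    _ = ∑ i ∈ Finset.range Q, d i := by
        field_simp

end Pool.Agent.Helper24.SR
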